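import Pool.Agent.Q16.CD.Uni

set_option autoImplicit false

/-!
# Project CD, job Gap: polynomials with small form
-/

open Polynomial Filter Topology Finset MeasureTheory

namespace Pool.Agent.Q16.CD

open Pool.Agent.Q240.CD

theorem mj_mono_n (g : ℕ → ℝ) (t : ℝ) : Monotone fun n => mj g n t := by
  refine monotone_nat_of_le_succ fun n => ?_
  unfold mj
  rw [prod_range_succ]
  have h0 : 0 ≤ ∏ j ∈ range n, max 1 (t / g j) := prod_nonneg fun j _ => zero_le_one.trans (le_max_left _ _)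
  exact le_mul_of_one_le_right h0 (le_max_left _ _)

theorem mj_one_le (g : ℕ → ℝ) (n : ℕ) (t : ℝ) : 1 ≤ mj g n t := by
  have h := mj_mono_n g t (Nat.zero_le n)
  simpa [mj] using h

theorem mj_mono_t {g : ℕ → ℝ} (hg : ∀ j, 0 < g j) (n : ℕ) {s t : ℝ} (hst : s ≤ t) : mj g n s ≤ mj g n t := by
  unfold mj
  refine prod_le_prod (fun j _ => zero_le_one.trans (le_max_left _ _)) fun j _ => ?_
  exact max_le_max le_rfl (div_le_div_of_nonneg_right hst (hg j).le)

theorem g_top {g : ℕ → ℝ} (hg : ∀ j, 0 < g j) (hs : Summable fun j => 1 / g j) : Tendsto g atTop atTop := by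
  have h1 : Tendsto (fun j => 1 / g j) atTop (𝓝[>] 0) :=
    tendsto_nhdsWithin_iff.2 ⟨hs.tendsto_atTop_zero, Eventually.of_forall fun j => by
      have := hg j
      show 0 < 1 / g j
      positivity⟩
  have h2 := tendsto_inv_nhdsGT_zero.comp h1
  refine h2.congr fun j => ?_
  simp

theorem mj_bdd {g : ℕ → ℝ} (hg : ∀ j, 0 < g j) (hs : Summable fun j => 1 / g j) (T : ℝ) :
    ∃ B : ℝ, 1 ≤ B ∧ ∀ n t, t ≤ T → mj g n t ≤ B := by
  obtain ⟨J, hJ⟩ := eventually_atTop.1 ((g_top hg hs).eventually_ge_atTop T)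
  refine ⟨mj g J T, mj_one_le g J T, fun n t ht => (mj_mono_t hg n ht).trans ?_⟩
  rcases le_total n J with h | h
  · exact mj_mono_n g T h
  · refine le_of_eq ?_
    induction n, h using Nat.le_induction with
    | base => rfl
    | succ n hn ih =>
      unfold mj at ih ⊢
      rw [prod_range_succ, ih, max_eq_left ((div_le_one (hg n)).2 (hJ n hn)), mul_one]

/-- lower bound for the products -/
theorem prod_low {g : ℕ → ℝ} (hm : StrictMono g) (hg : ∀ j, 0 < g j) (hs : Summable fun j => 1 / g j) (j : ℕ) :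
    ∃ c : ℝ, 0 < c ∧ ∀ᶠ D in atTop, c ≤ ∏ l ∈ (range D).erase j, |1 - g j / g l| := by
  obtain ⟨L, hL⟩ := eventually_atTop.1 ((g_top hg hs).eventually_ge_atTop (2 * g j))
  obtain ⟨K, hK⟩ : ∃ K, K = max L (j + 1) := ⟨_, rfl⟩
  have hne : ∀ l, l ≠ j → 0 < |1 - g j / g l| := by
    intro l hl
    rw [abs_pos, sub_ne_zero]
    intro h
    rw [eq_div_iff (hg l).ne', one_mul] at h
    exact hl (hm.injective h)
  refine ⟨(∏ l ∈ (range K).erase j, |1 - g j / g l|) * Real.exp (-(2 * g j * ∑' l, 1 / g l)),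
    mul_pos (prod_pos fun l hl => hne l (ne_of_mem_erase hl)) (Real.exp_pos _), ?_⟩
  filter_upwards [eventually_ge_atTop K] with D hD
  have key : (∏ l ∈ (range K).erase j, |1 - g j / g l|) * Real.exp (-(2 * g j * ∑ l ∈ Ico K D, 1 / g l)) ≤
      ∏ l ∈ (range D).erase j, |1 - g j / g l| := by
    induction D, hD using Nat.le_induction with
    | base => simp
    | succ D hD ih =>
      have hjD : j < D := by omega
      have hLD : L ≤ D := by omega
      have e1 : (range (D + 1)).erase j = insert D ((range D).erase j) := by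
        ext l
        simp only [mem_erase, mem_range, mem_insert]
        omega
      rw [e1, prod_insert (by simp), sum_Ico_succ_top hD, mul_add, neg_add, Real.exp_add, ← mul_assoc, mul_comm (|1 - g j / g D|)]
      refine mul_le_mul ih ?_ (Real.exp_pos _).le (prod_nonneg fun l _ => abs_nonneg _)
      have h2 : g j / g D ≤ 1 / 2 := by
        rw [div_le_div_iff₀ (hg D) (by norm_num)]
        linarith [hL D hLD]
      have h3 : 0 ≤ g j / g D := div_nonneg (hg j).le (hg D).le
      have e2 : 2 * g j * (1 / g D) = 2 * (g j / g D) := by ring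
      rw [e2]
      obtain ⟨x, hx⟩ : ∃ x, x = g j / g D := ⟨_, rfl⟩
      rw [← hx] at h2 h3 ⊢
      have h4 : Real.exp (-(2 * x)) * (1 + 2 * x) ≤ 1 := by
        have := Real.add_one_le_exp (2 * x)
        calc Real.exp (-(2 * x)) * (1 + 2 * x) ≤ Real.exp (-(2 * x)) * Real.exp (2 * x) := by
              gcongr
              linarith
          _ = 1 := by rw [← Real.exp_add]; simp
      have h5 : 1 ≤ |1 - x| * (1 + 2 * x) := by
        rw [abs_of_nonneg (by linarith)]
        nlinarith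
      have h6 : 0 < 1 + 2 * x := by linarith
      exact le_of_mul_le_mul_right (h4.trans h5) h6
  refine le_trans (mul_le_mul_of_nonneg_left ?_ (prod_nonneg fun l _ => abs_nonneg _)) key
  rw [Real.exp_le_exp, neg_le_neg_iff]
  have h1 : ∑ l ∈ Ico K D, 1 / g l ≤ ∑' l, 1 / g l :=
    hs.sum_le_tsum _ fun l _ => by have := hg l; positivity
  have := hg j
  gcongr

/-- the interpolants -/
noncomputable def ej (g : ℕ → ℝ) (D j : ℕ) : ℝ[X] := Lagrange.basis (range D) g j

theorem ej_self {g : ℕ → ℝ} (hm : StrictMono g) {D j : ℕ} (hj : j < D) : (ej g D j).eval (g j) = 1 :=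
  Lagrange.eval_basis_self hm.injective.injOn (mem_range.2 hj)

theorem ej_ne {g : ℕ → ℝ} {D j k : ℕ} (hk : k < D) (hjk : j ≠ k) : (ej g D j).eval (g k) = 0 :=
  Lagrange.eval_basis_of_ne hjk (mem_range.2 hk)

theorem ej_deg {g : ℕ → ℝ} (hm : StrictMono g) {D j : ℕ} (hj : j < D) : (ej g D j).natDegree ≤ D := by
  unfold ej
  rw [Lagrange.natDegree_basis hm.injective.injOn (mem_range.2 hj), card_range]
  omega

theorem ej_far {g : ℕ → ℝ} (hm : StrictMono g) (hg : ∀ j, 0 < g j) {D j k : ℕ} (hk : D ≤ k) {c : ℝ} (hc : 0 < c)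
    (hlow : c ≤ ∏ l ∈ (range D).erase j, |1 - g j / g l|) : |(ej g D j).eval (g k)| ≤ mj g k (g k) / c := by
  unfold ej Lagrange.basis
  rw [eval_prod, abs_prod]
  have e : ∀ l ∈ (range D).erase j, |(Lagrange.basisDivisor (g j) (g l)).eval (g k)| =
      |1 - g k / g l| / |1 - g j / g l| := by
    intro l hl
    have hlj : l ≠ j := ne_of_mem_erase hl
    have h1 : g j - g l ≠ 0 := sub_ne_zero.2 fun h => hlj (hm.injective h).symm
    have h2 := (hg l).ne'
    rw [Lagrange.basisDivisor, eval_mul, eval_C, eval_sub, eval_X, eval_C, ← abs_div]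
    have h3 : 1 - g j / g l ≠ 0 := by
      rw [sub_ne_zero]
      intro h
      rw [eq_div_iff h2, one_mul] at h
      exact hlj (hm.injective h)
    have h4 : (g j - g l)⁻¹ * (g k - g l) = (1 - g k / g l) / (1 - g j / g l) := by
      rw [eq_div_iff h3]
      field_simp
      ring
    rw [h4]
  rw [prod_congr rfl e, prod_div_distrib]
  have h0 : 0 < ∏ l ∈ (range D).erase j, |1 - g j / g l| := hc.trans_le hlow
  have h1 : ∏ l ∈ (range D).erase j, |1 - g k / g l| ≤ mj g k (g k) := by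
    have h2 : ∏ l ∈ (range D).erase j, |1 - g k / g l| ≤ ∏ l ∈ (range D).erase j, max 1 (g k / g l) := by
      refine prod_le_prod (fun l _ => abs_nonneg _) fun l _ => ?_
      have h3 : 0 ≤ g k / g l := div_nonneg (hg k).le (hg l).le
      rw [abs_le]
      constructor
      · linarith [le_max_right 1 (g k / g l)]
      · linarith [le_max_left 1 (g k / g l)]
    refine h2.trans ((?_ : _ ≤ mj g D (g k)).trans (mj_mono_n g (g k) hk))
    unfold mj
    by_cases hj : j ∈ range D
    · rw [← mul_prod_erase _ _ hj]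
      exact le_mul_of_one_le_left (prod_nonneg fun l _ => zero_le_one.trans (le_max_left _ _)) (le_max_left _ _)
    · rw [erase_eq_of_notMem hj]
  have h5 : 0 ≤ mj g k (g k) := zero_le_one.trans (mj_one_le _ _ _)
  calc (∏ l ∈ (range D).erase j, |1 - g k / g l|) / ∏ l ∈ (range D).erase j, |1 - g j / g l| ≤
        mj g k (g k) / ∏ l ∈ (range D).erase j, |1 - g j / g l| := by gcongr
    _ ≤ mj g k (g k) / c := by gcongr

/-- the excess of the limit masses of the squares of the interpolants -/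
theorem ej_excess {g μ : ℕ → ℝ} (hm : StrictMono g) (hg : ∀ j, 0 < g j) (hs : Summable fun j => 1 / g j)
    (hμ : ∀ j, 0 < μ j) (hmaj : Summable fun k => μ k * mj g k (g k) ^ 2)
    (j : ℕ) {η : ℝ} (hη : 0 < η) : ∀ᶠ D in atTop, Lam g μ (ej g D j * ej g D j) < μ j + η := by
  obtain ⟨c, hc, hlow⟩ := prod_low hm hg hs j
  obtain ⟨a, ha⟩ : ∃ a : ℕ → ℝ, a = fun k => μ k * mj g k (g k) ^ 2 := ⟨_, rfl⟩
  rw [← ha] at hmaj
  have ha0 : ∀ k, 0 ≤ a k := fun k => by rw [ha]; have := hμ k; positivity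
  have ht : Tendsto (fun D => ∑ k ∈ range D, a k) atTop (𝓝 (∑' k, a k)) := hmaj.hasSum.tendsto_sum_nat
  have h1 : ∀ᶠ D in atTop, (∑' k, a k) - η * c ^ 2 < ∑ k ∈ range D, a k :=
    ht.eventually (lt_mem_nhds (by have : 0 < η * c ^ 2 := by positivity
                                   linarith))
  filter_upwards [h1, hlow, eventually_gt_atTop j] with D hD1 hD2 hDj
  have hb : HasSum (fun k => (if k = j then μ j else 0) + 1 / c ^ 2 * (a k - if k ∈ range D then a k else 0))
      (μ j + 1 / c ^ 2 * ((∑' k, a k) - ∑ k ∈ range D, a k)) := by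
    have h2 : HasSum (fun k => if k ∈ range D then a k else 0) (∑ k ∈ range D, a k) := by
      have h3 : HasSum (fun k => if k ∈ range D then a k else 0) (∑ k ∈ range D, if k ∈ range D then a k else 0) :=
        hasSum_sum_of_ne_finset_zero (fun k hk => by rw [if_neg hk])
      rwa [sum_congr rfl fun k hk => if_pos hk] at h3
    exact (hasSum_ite_eq j (μ j)).add ((hmaj.hasSum.sub h2).mul_left _)
  have hle : ∀ k, μ k * (ej g D j * ej g D j).eval (g k) ≤
      (if k = j then μ j else 0) + 1 / c ^ 2 * (a k - if k ∈ range D then a k else 0) := by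
    intro k
    rw [eval_mul]
    by_cases hk : k < D
    · rw [if_pos (mem_range.2 hk), sub_self, mul_zero, add_zero]
      by_cases hkj : k = j
      · rw [if_pos hkj, hkj, ej_self hm hDj, mul_one, mul_one]
      · rw [if_neg hkj, ej_ne hk (Ne.symm hkj), mul_zero, mul_zero]
    · rw [if_neg (by omega : ¬ k = j), if_neg (by simpa using hk), sub_zero, zero_add]
      have h3 := ej_far hm hg (not_lt.1 hk) hc hD2
      have h4 : (ej g D j).eval (g k) * (ej g D j).eval (g k) ≤ (mj g k (g k) / c) ^ 2 := by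
        rw [← sq, ← sq_abs]
        exact pow_le_pow_left₀ (abs_nonneg _) h3 2
      rw [ha]
      calc μ k * ((ej g D j).eval (g k) * (ej g D j).eval (g k)) ≤ μ k * (mj g k (g k) / c) ^ 2 :=
            mul_le_mul_of_nonneg_left h4 (hμ k).le
        _ = 1 / c ^ 2 * (μ k * mj g k (g k) ^ 2) := by rw [div_pow]; ring
  have hsum : Summable fun k => μ k * (ej g D j * ej g D j).eval (g k) := by
    refine Summable.of_nonneg_of_le (fun k => ?_) hle hb.summable
    rw [eval_mul]
    exact mul_nonneg (hμ k).le (mul_self_nonneg _)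
  have h5 : Lam g μ (ej g D j * ej g D j) ≤ μ j + 1 / c ^ 2 * ((∑' k, a k) - ∑ k ∈ range D, a k) :=
    hasSum_le hle hsum.hasSum hb
  have h6 : 1 / c ^ 2 * ((∑' k, a k) - ∑ k ∈ range D, a k) < η := by
    rw [one_div, inv_mul_lt_iff₀ (by positivity)]
    linarith
  linarith

/-- the main estimate -/
theorem gap_core {g M : ℕ → ℝ} {n J D : ℕ} (hPM : PM g M n) (hJD : J ≤ D) (hDn : D ≤ n) {h : ℝ[X]}
    (hh : h.natDegree + 1 ≤ n) :
    Lam g M ((h - ∑ j ∈ range J, C (h.eval (g j)) * ej g D j) * (h - ∑ j ∈ range J, C (h.eval (g j)) * ej g D j)) ≤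
      2 / g J * Lam g M (X * h * h) +
        ∑ j ∈ range J, 2 * J * h.eval (g j) ^ 2 * (Lam g M (ej g D j * ej g D j) - M j) := by
  have hg := PM.gpos hPM
  have hm := hPM.mono
  obtain ⟨h', hh'⟩ : ∃ h', h' = h - ∑ j ∈ range J, C (h.eval (g j)) * ej g D j := ⟨_, rfl⟩
  rw [← hh']
  have hev : ∀ t, h'.eval t = h.eval t - ∑ j ∈ range J, h.eval (g j) * (ej g D j).eval t := by
    intro t
    rw [hh', eval_sub, eval_finsetSum]
    simp only [eval_mul, eval_C]
  have hd' : h'.natDegree ≤ n := by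
    rw [hh']
    refine (natDegree_sub_le_of_le (n := n) (by omega) ?_).trans (max_self _).le
    refine natDegree_sum_le_of_forall_le _ _ fun j hj => ?_
    exact (natDegree_C_mul_le _ _).trans ((ej_deg hm (by have := mem_range.1 hj; omega)).trans hDn)
  have s1 : HasSum (fun k => M k * (h' * h').eval (g k)) (Lam g M (h' * h')) :=
    (PM.summ hPM (natDegree_mul_le.trans (by omega))).hasSum
  have s2 : HasSum (fun k => M k * (X * h * h).eval (g k)) (Lam g M (X * h * h)) := by
    refine (PM.summ hPM ?_).hasSum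
    refine natDegree_mul_le.trans ?_
    have : (X * h : ℝ[X]).natDegree ≤ 1 + h.natDegree := natDegree_mul_le.trans (by rw [natDegree_X])
    omega
  have s3 : ∀ j ∈ range J, HasSum (fun k => 2 * J * h.eval (g j) ^ 2 * (M k * (ej g D j * ej g D j).eval (g k) -
      if k = j then M j else 0)) (2 * J * h.eval (g j) ^ 2 * (Lam g M (ej g D j * ej g D j) - M j)) := by
    intro j hj
    refine HasSum.mul_left _ (HasSum.sub ?_ (hasSum_ite_eq j (M j)))
    refine (PM.summ hPM ?_).hasSum
    have := ej_deg hm (D := D) (j := j) (by have := mem_range.1 hj; omega)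
    exact natDegree_mul_le.trans (by omega)
  have s4 := (s2.mul_left (2 / g J)).add (hasSum_sum s3)
  refine hasSum_le (fun k => ?_) s1 s4
  have hMk := hPM.nonneg k
  simp only [eval_mul, eval_X]
  have hnn : ∀ j ∈ range J, 0 ≤ 2 * J * h.eval (g j) ^ 2 * (M k * ((ej g D j).eval (g k) * (ej g D j).eval (g k)) -
      if k = j then M j else 0) := by
    intro j hj
    refine mul_nonneg (by positivity) ?_
    by_cases hkj : k = j
    · rw [if_pos hkj, hkj, ej_self hm (by have := mem_range.1 hj; omega)]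
      simp
    · rw [if_neg hkj, sub_zero]
      exact mul_nonneg hMk (mul_self_nonneg _)
  by_cases hkJ : k < J
  · have h0 : h'.eval (g k) = 0 := by
      rw [hev, sum_eq_single k]
      · rw [ej_self hm (by omega), mul_one, sub_self]
      · intro j _ hjk
        rw [ej_ne (by omega : k < D) hjk, mul_zero]
      · intro hk
        exact absurd (mem_range.2 hkJ) hk
    rw [h0, mul_zero, mul_zero]
    have h1 : 0 ≤ 2 / g J * (M k * (g k * h.eval (g k) * h.eval (g k))) := by
      have := hg J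
      have := hg k
      have h2 := mul_self_nonneg (h.eval (g k))
      have h3 : g k * h.eval (g k) * h.eval (g k) = g k * (h.eval (g k) * h.eval (g k)) := by ring
      rw [h3]
      positivity
    exact add_nonneg h1 (sum_nonneg hnn)
  · have h1 : h'.eval (g k) * h'.eval (g k) ≤ 2 * h.eval (g k) ^ 2 +
        ∑ j ∈ range J, 2 * J * h.eval (g j) ^ 2 * ((ej g D j).eval (g k) * (ej g D j).eval (g k)) := by
      have h2 := sq_sum_le_card_mul_sum_sq (s := range J) (f := fun j => h.eval (g j) * (ej g D j).eval (g k))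
      rw [card_range] at h2
      have h3 : h'.eval (g k) * h'.eval (g k) ≤ 2 * h.eval (g k) ^ 2 +
          2 * (∑ j ∈ range J, h.eval (g j) * (ej g D j).eval (g k)) ^ 2 := by
        rw [hev]
        nlinarith [sq_nonneg (h.eval (g k) + ∑ j ∈ range J, h.eval (g j) * (ej g D j).eval (g k))]
      have h4 : ∑ j ∈ range J, 2 * J * h.eval (g j) ^ 2 * ((ej g D j).eval (g k) * (ej g D j).eval (g k)) =
          2 * (J * ∑ j ∈ range J, (h.eval (g j) * (ej g D j).eval (g k)) ^ 2) := by
        rw [mul_sum, mul_sum]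
        exact sum_congr rfl fun j _ => by ring
      rw [h4]
      linarith
    have h5 : 2 * h.eval (g k) ^ 2 ≤ 2 / g J * (g k * h.eval (g k) * h.eval (g k)) := by
      have h6 : g J ≤ g k := hm.monotone (not_lt.1 hkJ)
      have h7 := hg J
      have h8 : 2 / g J * (g k * h.eval (g k) * h.eval (g k)) = (g k / g J) * (2 * h.eval (g k) ^ 2) := by
        field_simp
      rw [h8]
      exact le_mul_of_one_le_left (by positivity) ((one_le_div h7).2 h6)
    calc M k * (h'.eval (g k) * h'.eval (g k)) ≤ M k * (2 / g J * (g k * h.eval (g k) * h.eval (g k)) +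
          ∑ j ∈ range J, 2 * J * h.eval (g j) ^ 2 * ((ej g D j).eval (g k) * (ej g D j).eval (g k))) :=
          mul_le_mul_of_nonneg_left (by linarith) hMk
      _ = 2 / g J * (M k * (g k * h.eval (g k) * h.eval (g k))) +
          ∑ j ∈ range J, 2 * J * h.eval (g j) ^ 2 * (M k * ((ej g D j).eval (g k) * (ej g D j).eval (g k)) -
            if k = j then M j else 0) := by
        rw [mul_add, mul_sum]
        congr 1
        · ring
        · refine sum_congr rfl fun j hj => ?_
          rw [if_neg (by have := mem_range.1 hj; omega)]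
          ring

theorem gap : S_Kb → S_Del → S_Gap := by
  intro hKb hDel ι l g μ N M hF q0 hq0 T C ε hε
  have hδt := hDel l g μ N M hF q0 hq0
  -- `g` is increasing and positive if the filter is not trivial
  rcases l.eq_or_neBot with rfl | hne
  · simp
  obtain ⟨i0, hi0⟩ := hF.pm.exists
  have hm := hi0.mono
  have hg := PM.gpos hi0
  have hs := hF.gsum
  obtain ⟨T₁, hT₁⟩ : ∃ T₁, T₁ = max T 0 := ⟨_, rfl⟩
  have hT0 : 0 ≤ T₁ := by rw [hT₁]; exact le_max_right _ _
  obtain ⟨C₁, hC₁⟩ : ∃ C₁, C₁ = max C 0 := ⟨_, rfl⟩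
  have hC0 : 0 ≤ C₁ := by rw [hC₁]; exact le_max_right _ _
  obtain ⟨B, hB1, hB⟩ := mj_bdd hg hs T₁
  obtain ⟨CT, hCT⟩ : ∃ CT, CT = Cg g * (1 + T₁) ^ 2 * B ^ 2 := ⟨_, rfl⟩
  have hCg : 0 ≤ Cg g := by unfold Cg; positivity
  have hCT0 : 0 ≤ CT := by rw [hCT]; positivity
  -- `J`
  obtain ⟨J, hJ⟩ := ((g_top hg hs).eventually_ge_atTop (16 * CT * C₁ / ε)).exists
  have hJ' : 2 * CT * (2 / g J * C₁) ≤ ε / 4 := by
    rw [div_le_iff₀ hε] at hJ
    have hgJ := hg J
    have e : 2 * CT * (2 / g J * C₁) = 4 * CT * C₁ / g J := by ring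
    rw [e, div_le_iff₀ hgJ]
    nlinarith
  obtain ⟨Cj, hCj⟩ : ∃ Cj : ℕ → ℝ, Cj = fun j => 2 * C₁ / (μ j * g j) := ⟨_, rfl⟩
  have hCj0 : ∀ j, 0 ≤ Cj j := fun j => by
    rw [hCj]
    have := hF.mpos j
    have := hg j
    positivity
  obtain ⟨S1, hS1⟩ : ∃ S1 : ℝ, S1 = ∑ j ∈ range J, Cj j := ⟨_, rfl⟩
  have hS10 : 0 ≤ S1 := by rw [hS1]; exact sum_nonneg fun j _ => hCj0 j
  obtain ⟨η, hη⟩ : ∃ η : ℝ, η = ε / (16 * CT * J * S1 + 16) := ⟨_, rfl⟩
  have hη0 : 0 < η := by rw [hη]; positivity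
  have hη1 : 2 * CT * (2 * J * S1 * η) ≤ ε / 4 := by
    rw [hη, mul_div_assoc', mul_div_assoc', div_le_iff₀ (by positivity)]
    have : 0 ≤ CT * J * S1 := by positivity
    nlinarith
  -- `D`
  have hDev : ∀ᶠ D in atTop, ∀ j ∈ range J, Lam g μ (ej g D j * ej g D j) < μ j + η :=
    (eventually_all_finset (range J)).2 fun j _ => ej_excess hm hg hs hF.mpos hF.maj j hη0
  obtain ⟨D, hD, hJD⟩ := (hDev.and (eventually_ge_atTop J)).exists
  have hEx : ∀ j, ∃ E : ℝ, 0 ≤ E ∧ ∀ t, 0 ≤ t → t ≤ T₁ → (ej g D j).eval t ^ 2 ≤ E := by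
    intro j
    obtain ⟨A, hA, hAb⟩ := poly_bd _ (ej g D j) le_rfl
    refine ⟨(A * (1 + T₁) ^ (ej g D j).natDegree) ^ 2, by positivity, fun t ht ht' => ?_⟩
    rw [← sq_abs]
    refine pow_le_pow_left₀ (abs_nonneg _) ((hAb t).trans ?_) 2
    rw [abs_of_nonneg ht]
    gcongr
  choose E hE0 hE using hEx
  obtain ⟨S2, hS2⟩ : ∃ S2 : ℝ, S2 = ∑ j ∈ range J, Cj j * E j := ⟨_, rfl⟩
  have hS20 : 0 ≤ S2 := by rw [hS2]; exact sum_nonneg fun j _ => mul_nonneg (hCj0 j) (hE0 j)
  -- eventually
  have v1 : ∀ᶠ i in l, ∀ j ∈ range J, μ j / 2 < M i j :=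
    (eventually_all_finset (range J)).2 fun j _ =>
      (hF.lim j).eventually (lt_mem_nhds (by have := hF.mpos j; linarith))
  have v2 : ∀ᶠ i in l, ∀ j ∈ range J, Lam g (M i) (ej g D j * ej g D j) - M i j < η :=
    (eventually_all_finset (range J)).2 fun j hj =>
      ((hF.limP (ej g D j * ej g D j)).sub (hF.lim j)).eventually (gt_mem_nhds (by have := hD j hj; linarith))
  have v3 : ∀ᶠ i in l, Lam g (M i) (q0 i * q0 i) < ε / (8 * J * S2 + 8) :=
    hδt.eventually (gt_mem_nhds (by positivity))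
  filter_upwards [hF.pm, hF.top.eventually_ge_atTop D, v1, v2, v3, hq0] with i hPM hND w1 w2 w3 hEx h hh hLh t ht0 htT
  obtain ⟨δ, hδ⟩ : ∃ δ : ℝ, δ = Lam g (M i) (q0 i * q0 i) := ⟨_, rfl⟩
  have hq0ne : q0 i ≠ 0 := by
    intro h0
    have := hEx.2.1
    rw [h0, eval_zero] at this
    exact zero_ne_one this
  have hδ0 : 0 < δ := by rw [hδ]; exact hPM.dfn _ hEx.1 hq0ne
  rw [← hδ] at w3 hLh
  have hLh' : Lam g (M i) (X * h * h) ≤ C₁ * δ :=
    hLh.trans (mul_le_mul_of_nonneg_right (by rw [hC₁]; exact le_max_left _ _) hδ0.le)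
  have htT' : t ≤ T₁ := by rw [hT₁]; exact htT.trans (le_max_left _ _)
  -- the values at the points
  have hsX : Summable fun k => M i k * (X * h * h).eval (g k) := by
    refine PM.summ hPM ?_
    refine natDegree_mul_le.trans ?_
    have : (X * h : ℝ[X]).natDegree ≤ 1 + h.natDegree := natDegree_mul_le.trans (by rw [natDegree_X])
    omega
  have hval : ∀ j ∈ range J, h.eval (g j) ^ 2 ≤ Cj j * δ := by
    intro j hj
    have h1 : M i j * (X * h * h).eval (g j) ≤ Lam g (M i) (X * h * h) :=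
      hsX.le_tsum j fun k _ => by
        simp only [eval_mul, eval_X]
        have h3 : g k * h.eval (g k) * h.eval (g k) = g k * (h.eval (g k) * h.eval (g k)) := by ring
        rw [h3]
        exact mul_nonneg (hPM.nonneg k) (mul_nonneg (hg k).le (mul_self_nonneg _))
    have h2 : M i j * (X * h * h).eval (g j) = M i j * (g j * h.eval (g j) ^ 2) := by
      simp only [eval_mul, eval_X]
      ring
    have h3 : μ j / 2 * (g j * h.eval (g j) ^ 2) ≤ C₁ * δ := by
      refine le_trans ?_ ((h2 ▸ h1).trans hLh')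
      have := hg j
      have := (w1 j hj).le
      gcongr
    rw [hCj]
    show h.eval (g j) ^ 2 ≤ 2 * C₁ / (μ j * g j) * δ
    have := hg j
    have := hF.mpos j
    rw [div_mul_eq_mul_div, le_div_iff₀ (by positivity)]
    linarith
  obtain ⟨h', hh'⟩ : ∃ h', h' = h - ∑ j ∈ range J, Polynomial.C (h.eval (g j)) * ej g D j := ⟨_, rfl⟩
  have hcore := gap_core hPM hJD hND hh
  rw [← hh'] at hcore
  have hd' : h'.natDegree ≤ N i := by
    rw [hh']
    refine (natDegree_sub_le_of_le (n := N i) (by omega) ?_).trans (max_self _).le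
    refine natDegree_sum_le_of_forall_le _ _ fun j hj => ?_
    exact (natDegree_C_mul_le _ _).trans ((ej_deg hm (by have := mem_range.1 hj; omega)).trans hND)
  have hLam' : Lam g (M i) (h' * h') ≤ (2 / g J * C₁ + 2 * J * S1 * η) * δ := by
    refine hcore.trans ?_
    have h1 : 2 / g J * Lam g (M i) (X * h * h) ≤ 2 / g J * (C₁ * δ) := by
      have := hg J
      gcongr
    have h2 : ∑ j ∈ range J, 2 * J * h.eval (g j) ^ 2 * (Lam g (M i) (ej g D j * ej g D j) - M i j) ≤
        ∑ j ∈ range J, 2 * J * (Cj j * δ) * η := by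
      refine sum_le_sum fun j hj => ?_
      have h3 := hval j hj
      have h4 := (w2 j hj).le
      have h5 : 0 ≤ 2 * (J : ℝ) * h.eval (g j) ^ 2 := by positivity
      calc 2 * J * h.eval (g j) ^ 2 * (Lam g (M i) (ej g D j * ej g D j) - M i j) ≤ 2 * J * h.eval (g j) ^ 2 * η :=
            mul_le_mul_of_nonneg_left h4 h5
        _ ≤ 2 * J * (Cj j * δ) * η := by gcongr
    have h3 : ∑ j ∈ range J, 2 * J * (Cj j * δ) * η = 2 * J * S1 * η * δ := by
      rw [hS1, mul_sum, sum_mul, sum_mul]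
      exact sum_congr rfl fun j _ => by ring
    rw [h3] at h2
    linarith
  -- the kernel bound
  have hk := hKb g (M i) (N i) hPM (q0 i) hEx (N i) h' t le_rfl hd' ht0
  rw [← hδ] at hk
  have hLam0 : 0 ≤ (2 / g J * C₁ + 2 * J * S1 * η) * δ := by
    have := hg J
    positivity
  have hk2 : h'.eval t ^ 2 * δ ≤ CT * ((2 / g J * C₁ + 2 * J * S1 * η) * δ) := by
    refine hk.trans ?_
    rw [hCT]
    have h1 : Cg g * (1 + t) ^ 2 * mj g (N i - 1) t ^ 2 ≤ Cg g * (1 + T₁) ^ 2 * B ^ 2 := by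
      have h2 := hB (N i - 1) t htT'
      have h3 : 0 ≤ mj g (N i - 1) t := zero_le_one.trans (mj_one_le _ _ _)
      gcongr
    calc Cg g * (1 + t) ^ 2 * mj g (N i - 1) t ^ 2 * Lam g (M i) (h' * h') ≤
          Cg g * (1 + t) ^ 2 * mj g (N i - 1) t ^ 2 * ((2 / g J * C₁ + 2 * J * S1 * η) * δ) :=
          mul_le_mul_of_nonneg_left hLam' (by positivity)
      _ ≤ _ := mul_le_mul_of_nonneg_right h1 hLam0
  have hk3 : h'.eval t ^ 2 ≤ CT * (2 / g J * C₁ + 2 * J * S1 * η) := by
    have h1 : h'.eval t ^ 2 * δ ≤ (CT * (2 / g J * C₁ + 2 * J * S1 * η)) * δ := by linarith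
    exact le_of_mul_le_mul_right h1 hδ0
  -- the sum
  have hsum : (∑ j ∈ range J, h.eval (g j) * (ej g D j).eval t) ^ 2 ≤ J * (S2 * δ) := by
    have h2 := sq_sum_le_card_mul_sum_sq (s := range J) (f := fun j => h.eval (g j) * (ej g D j).eval t)
    rw [card_range] at h2
    refine h2.trans (mul_le_mul_of_nonneg_left ?_ (Nat.cast_nonneg _))
    rw [hS2, sum_mul]
    refine sum_le_sum fun j hj => ?_
    rw [mul_pow]
    have h3 := hval j hj
    have h4 := hE j t ht0 htT'
    calc h.eval (g j) ^ 2 * (ej g D j).eval t ^ 2 ≤ (Cj j * δ) * E j :=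
          mul_le_mul h3 h4 (sq_nonneg _) (mul_nonneg (hCj0 j) hδ0.le)
      _ = Cj j * E j * δ := by ring
  have hev : h.eval t = h'.eval t + ∑ j ∈ range J, h.eval (g j) * (ej g D j).eval t := by
    rw [hh', eval_sub, eval_finsetSum]
    simp only [eval_mul, eval_C]
    ring
  have h7 : 2 * (J * (S2 * δ)) ≤ ε / 4 := by
    have h8 : δ * (8 * J * S2 + 8) ≤ ε := ((lt_div_iff₀ (by positivity)).1 w3).le
    have h9 : 0 ≤ δ := hδ0.le
    nlinarith
  rw [hev]
  nlinarith [sq_nonneg (h'.eval t - ∑ j ∈ range J, h.eval (g j) * (ej g D j).eval t)]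

end Pool.Agent.Q16.CD
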