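import Pool.Agent.Q240.CD.Stm

set_option autoImplicit false

/-!
# Project CD, job Uni: the ground states
-/

open Polynomial Filter Topology Finset MeasureTheory

namespace Pool.Agent.Q16.CD

open Pool.Agent.Q240.CD

/-! ### bounds for polynomials -/

theorem poly_bd (N : ℕ) (p : ℝ[X]) (hp : p.natDegree ≤ N) : ∃ C : ℝ, 0 ≤ C ∧ ∀ x : ℝ, |p.eval x| ≤ C * (1 + |x|) ^ N := by
  refine ⟨∑ i ∈ range (N + 1), |p.coeff i|, sum_nonneg fun i _ => abs_nonneg _, fun x => ?_⟩
  rw [eval_eq_sum_range' (by omega : p.natDegree < N + 1), sum_mul]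
  refine (abs_sum_le_sum_abs _ _).trans (sum_le_sum fun i hi => ?_)
  rw [abs_mul, abs_pow]
  refine mul_le_mul_of_nonneg_left ?_ (abs_nonneg _)
  rw [mem_range] at hi
  have h1 : |x| ^ i ≤ (1 + |x|) ^ i := pow_le_pow_left₀ (abs_nonneg _) (by linarith) i
  exact h1.trans (pow_le_pow_right₀ (by linarith [abs_nonneg x]) (by omega))

variable {g M : ℕ → ℝ} {n : ℕ} {u : ℝ → ℝ}

theorem PM.gpos (h : PM g M n) (j : ℕ) : 0 < g j := h.pos.trans_le (h.mono.monotone (Nat.zero_le j))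

theorem PM.summ (h : PM g M n) {p : ℝ[X]} (hp : p.natDegree ≤ 2 * n) : Summable fun j => M j * p.eval (g j) := by
  obtain ⟨C, hC, hb⟩ := poly_bd (2 * n) p hp
  refine Summable.of_norm_bounded (h.sum.mul_left C) fun j => ?_
  rw [Real.norm_eq_abs, abs_mul, abs_of_nonneg (h.nonneg j)]
  have h1 := hb (g j)
  rw [abs_of_pos (PM.gpos h j)] at h1
  calc M j * |p.eval (g j)| ≤ M j * (C * (1 + g j) ^ (2 * n)) := mul_le_mul_of_nonneg_left h1 (h.nonneg j)
    _ = _ := by ring

theorem Lam_add (h : PM g M n) {p q : ℝ[X]} (hp : p.natDegree ≤ 2 * n) (hq : q.natDegree ≤ 2 * n) :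
    Lam g M (p + q) = Lam g M p + Lam g M q := by
  unfold Lam
  rw [← (PM.summ h hp).tsum_add (PM.summ h hq)]
  congr 1
  funext j
  rw [eval_add]
  ring

/-! ### linear functionals of the square -/

noncomputable def LS (g M : ℕ → ℝ) (S : ℝ[X]) : ℝ :=
  ∑' j, M j / 2 * (S.eval (Real.sqrt (g j)) + S.eval (-Real.sqrt (g j)))

noncomputable def OS (u : ℝ → ℝ) (S : ℝ[X]) : ℝ := ∫ x : ℝ, S.eval x * u x

theorem Lp_eq (P : ℝ[X]) : Lp g M P = LS g M (P * P) := by
  unfold Pool.Agent.Q240.CD.Lp LS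
  congr 1
  funext j
  rw [eval_mul, eval_mul]
  ring

theorem Op_eq (P : ℝ[X]) : Op u P = OS u (P * P) := by
  unfold Op OS
  congr 1
  funext x
  rw [eval_mul]
  ring

theorem LS_summ (h : PM g M n) {S : ℝ[X]} (hS : S.natDegree ≤ 4 * n) :
    Summable fun j => M j / 2 * (S.eval (Real.sqrt (g j)) + S.eval (-Real.sqrt (g j))) := by
  obtain ⟨C, hC, hb⟩ := poly_bd (4 * n) S hS
  refine Summable.of_norm_bounded (h.sum.mul_left (C * 2 ^ (2 * n))) fun j => ?_
  have hg := PM.gpos h j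
  have hs : 0 ≤ Real.sqrt (g j) := Real.sqrt_nonneg _
  have hss : Real.sqrt (g j) ^ 2 = g j := Real.sq_sqrt hg.le
  have h1 := hb (Real.sqrt (g j))
  have h2 := hb (-Real.sqrt (g j))
  rw [abs_neg] at h2
  rw [abs_of_nonneg hs] at h1 h2
  have h3 : (1 + Real.sqrt (g j)) ^ (4 * n) ≤ 2 ^ (2 * n) * (1 + g j) ^ (2 * n) := by
    rw [show 4 * n = 2 * (2 * n) by ring, pow_mul, ← mul_pow]
    refine pow_le_pow_left₀ (by positivity) ?_ _
    nlinarith [sq_nonneg (1 - Real.sqrt (g j))]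
  rw [Real.norm_eq_abs, abs_mul, abs_of_nonneg (div_nonneg (h.nonneg j) (by norm_num))]
  have h4 := abs_add_le (S.eval (Real.sqrt (g j))) (S.eval (-Real.sqrt (g j)))
  have h5 : |S.eval (Real.sqrt (g j)) + S.eval (-Real.sqrt (g j))| ≤ 2 * (C * (2 ^ (2 * n) * (1 + g j) ^ (2 * n))) := by
    have := mul_le_mul_of_nonneg_left h3 hC
    linarith
  calc M j / 2 * |S.eval (Real.sqrt (g j)) + S.eval (-Real.sqrt (g j))| ≤
        M j / 2 * (2 * (C * (2 ^ (2 * n) * (1 + g j) ^ (2 * n)))) :=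
        mul_le_mul_of_nonneg_left h5 (div_nonneg (h.nonneg j) (by norm_num))
    _ = _ := by ring

theorem LS_add (h : PM g M n) {S R : ℝ[X]} (hS : S.natDegree ≤ 4 * n) (hR : R.natDegree ≤ 4 * n) :
    LS g M (S + R) = LS g M S + LS g M R := by
  unfold LS
  rw [← (LS_summ h hS).tsum_add (LS_summ h hR)]
  congr 1
  funext j
  rw [eval_add, eval_add]
  ring

theorem LS_mul (c : ℝ) (S : ℝ[X]) : LS g M (C c * S) = c * LS g M S := by
  unfold LS
  rw [← tsum_mul_left]
  congr 1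
  funext j
  rw [eval_mul, eval_mul, eval_C, eval_C]
  ring

theorem OS_int (hu0 : ∀ x, 0 ≤ u x) (huc : Continuous u) (hi : Integrable (fun x => (1 + x ^ 2) ^ (2 * n) * u x)) {S : ℝ[X]}
    (hS : S.natDegree ≤ 4 * n) : Integrable fun x => S.eval x * u x := by
  obtain ⟨C, hC, hb⟩ := poly_bd (4 * n) S hS
  refine (hi.const_mul (C * 2 ^ (2 * n))).mono' (S.continuous.mul huc).aestronglyMeasurable
    (Eventually.of_forall fun x => ?_)
  rw [Real.norm_eq_abs, abs_mul, abs_of_nonneg (hu0 x)]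
  have h3 : (1 + |x|) ^ (4 * n) ≤ 2 ^ (2 * n) * (1 + x ^ 2) ^ (2 * n) := by
    rw [show 4 * n = 2 * (2 * n) by ring, pow_mul, ← mul_pow]
    refine pow_le_pow_left₀ (by positivity) ?_ _
    nlinarith [sq_nonneg (1 - |x|), sq_abs x]
  have h4 : |S.eval x| ≤ C * (2 ^ (2 * n) * (1 + x ^ 2) ^ (2 * n)) :=
    (hb x).trans (mul_le_mul_of_nonneg_left h3 hC)
  calc |S.eval x| * u x ≤ C * (2 ^ (2 * n) * (1 + x ^ 2) ^ (2 * n)) * u x := mul_le_mul_of_nonneg_right h4 (hu0 x)
    _ = _ := by ring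

theorem OS_add (hu0 : ∀ x, 0 ≤ u x) (huc : Continuous u) (hi : Integrable (fun x => (1 + x ^ 2) ^ (2 * n) * u x))
    {S R : ℝ[X]} (hS : S.natDegree ≤ 4 * n) (hR : R.natDegree ≤ 4 * n) : OS u (S + R) = OS u S + OS u R := by
  unfold OS
  rw [← integral_add (OS_int hu0 huc hi hS) (OS_int hu0 huc hi hR)]
  congr 1
  funext x
  rw [eval_add]
  ring

theorem OS_mul (c : ℝ) (S : ℝ[X]) : OS u (C c * S) = c * OS u S := by
  unfold OS
  rw [← integral_const_mul]
  congr 1
  funext x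
  rw [eval_mul, eval_C]
  ring

/-! ### even and odd part -/

theorem split_eval (P : ℝ[X]) : P = (contract 2 P).comp (X ^ 2) + X * (contract 2 (divX P)).comp (X ^ 2) := by
  rw [← expand_eq_comp_X_pow, ← expand_eq_comp_X_pow]
  ext k
  rw [coeff_add, coeff_expand (by norm_num)]
  rcases Nat.even_or_odd' k with ⟨j, rfl | rfl⟩
  · rw [if_pos (dvd_mul_right 2 j), Nat.mul_div_cancel_left j (by norm_num), coeff_contract (by norm_num)]
    rcases Nat.eq_zero_or_pos j with rfl | hj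
    · rw [mul_zero, coeff_X_mul_zero]
      simp
    · obtain ⟨i, rfl⟩ : ∃ i, j = i + 1 := ⟨j - 1, by omega⟩
      rw [show 2 * (i + 1) = (2 * i + 1) + 1 by ring, coeff_X_mul, coeff_expand (by norm_num), if_neg (by omega)]
      rw [show (i + 1) * 2 = 2 * i + 1 + 1 by ring, add_zero]
  · rw [if_neg (by omega), coeff_X_mul, coeff_expand (by norm_num), if_pos (dvd_mul_right 2 j),
      Nat.mul_div_cancel_left j (by norm_num), coeff_contract (by norm_num), coeff_divX, zero_add]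
    congr 1
    ring

theorem deg_contract {P : ℝ[X]} (hP : P.natDegree ≤ 2 * n) : (contract 2 P).natDegree ≤ n := by
  rw [natDegree_le_iff_coeff_eq_zero]
  intro k hk
  rw [coeff_contract (by norm_num)]
  exact coeff_eq_zero_of_natDegree_lt (by omega)

theorem deg_contract' {P : ℝ[X]} (hP : P.natDegree ≤ 2 * n) (h0 : contract 2 (divX P) ≠ 0) :
    (contract 2 (divX P)).natDegree + 1 ≤ n := by
  by_contra h
  apply h0
  have h1 : (contract 2 (divX P)).coeff (contract 2 (divX P)).natDegree = 0 := by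
    rw [coeff_contract (by norm_num), coeff_divX]
    exact coeff_eq_zero_of_natDegree_lt (by omega)
  exact leadingCoeff_eq_zero.1 h1

theorem split_zero {P : ℝ[X]} (h : contract 2 (divX P) = 0) : P = (contract 2 P).comp (X ^ 2) := by
  have h1 := split_eval P
  rw [h, zero_comp, mul_zero, add_zero] at h1
  exact h1

theorem deg_comp2 {q : ℝ[X]} (hq : q.natDegree ≤ n) : (q.comp (X ^ 2)).natDegree ≤ 2 * n := by
  rw [natDegree_comp, natDegree_X_pow]
  omega

theorem Lp_even (h : PM g M n) {q : ℝ[X]} : Lp g M (q.comp (X ^ 2)) = Lam g M (q * q) := by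
  unfold Pool.Agent.Q240.CD.Lp Lam
  congr 1
  funext j
  simp only [eval_comp, eval_pow, eval_X, neg_sq, eval_mul]
  rw [Real.sq_sqrt (PM.gpos h j).le]
  ring

theorem Lp_odd (h : PM g M n) {r : ℝ[X]} : Lp g M (X * r.comp (X ^ 2)) = Lam g M (X * r * r) := by
  unfold Pool.Agent.Q240.CD.Lp Lam
  congr 1
  funext j
  simp only [eval_comp, eval_pow, eval_X, neg_sq, eval_mul, mul_pow]
  rw [Real.sq_sqrt (PM.gpos h j).le]
  ring

theorem Op_even {q : ℝ[X]} : Op u (q.comp (X ^ 2)) = Oe u q := by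
  unfold Op Oe
  congr 1
  funext x
  rw [eval_comp, eval_pow, eval_X]

theorem Op_odd {r : ℝ[X]} : Op u (X * r.comp (X ^ 2)) = Oo u r := by
  unfold Op Oo
  congr 1
  funext x
  rw [eval_mul, eval_comp, eval_pow, eval_X]
  ring

/-- the cross term -/
theorem LS_cross (q r : ℝ[X]) : LS g M (q.comp (X ^ 2) * (X * r.comp (X ^ 2))) = 0 := by
  unfold LS
  have : ∀ j, M j / 2 * ((q.comp (X ^ 2) * (X * r.comp (X ^ 2))).eval (Real.sqrt (g j)) +
      (q.comp (X ^ 2) * (X * r.comp (X ^ 2))).eval (-Real.sqrt (g j))) = 0 := by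
    intro j
    simp only [eval_mul, eval_comp, eval_pow, eval_X, neg_sq]
    ring
  simp only [this, tsum_zero]

theorem OS_cross (hue : ∀ x, u (-x) = u x) (q r : ℝ[X]) : OS u (q.comp (X ^ 2) * (X * r.comp (X ^ 2))) = 0 := by
  unfold OS
  have h0 := integral_neg_eq_self (fun x : ℝ => (q.comp (X ^ 2) * (X * r.comp (X ^ 2))).eval x * u x) volume
  have h1 : ∀ x : ℝ, (q.comp (X ^ 2) * (X * r.comp (X ^ 2))).eval (-x) * u (-x) =
      -((q.comp (X ^ 2) * (X * r.comp (X ^ 2))).eval x * u x) := by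
    intro x
    rw [hue]
    simp only [eval_mul, eval_comp, eval_pow, eval_X, neg_sq]
    ring
  simp only [h1] at h0
  rw [integral_neg] at h0
  linarith

theorem deg_sq {S R : ℝ[X]} (hS : S.natDegree ≤ 2 * n) (hR : R.natDegree ≤ 2 * n) : (S * R).natDegree ≤ 4 * n := by
  refine natDegree_mul_le.trans ?_
  omega

theorem deg_odd {r : ℝ[X]} (hr : r = 0 ∨ r.natDegree + 1 ≤ n) : (X * r.comp (X ^ 2)).natDegree ≤ 2 * n := by
  rcases hr with rfl | hr
  · rw [zero_comp, mul_zero]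
    simp
  · refine natDegree_mul_le.trans ?_
    rw [natDegree_comp, natDegree_X_pow, natDegree_X]
    omega

/-- the form and the norm of a sum of an even and an odd polynomial -/
theorem Lp_split (h : PM g M n) {q r : ℝ[X]} (hq : q.natDegree ≤ n) (hr : r = 0 ∨ r.natDegree + 1 ≤ n) :
    Lp g M (q.comp (X ^ 2) + X * r.comp (X ^ 2)) = Lam g M (q * q) + Lam g M (X * r * r) := by
  have d1 := deg_comp2 hq
  have d2 := deg_odd hr
  rw [← Lp_even h, ← Lp_odd h, Lp_eq, Lp_eq, Lp_eq]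
  have e : (q.comp (X ^ 2) + X * r.comp (X ^ 2)) * (q.comp (X ^ 2) + X * r.comp (X ^ 2)) =
      (q.comp (X ^ 2) * q.comp (X ^ 2) + (X * r.comp (X ^ 2)) * (X * r.comp (X ^ 2))) +
        C 2 * (q.comp (X ^ 2) * (X * r.comp (X ^ 2))) := by
    rw [show (C 2 : ℝ[X]) = 2 from rfl]
    ring
  have d3 : (C 2 * (q.comp (X ^ 2) * (X * r.comp (X ^ 2))) : ℝ[X]).natDegree ≤ 4 * n :=
    (natDegree_C_mul_le _ _).trans (deg_sq d1 d2)
  rw [e, LS_add h (natDegree_add_le_of_degree_le (deg_sq d1 d1) (deg_sq d2 d2)) d3,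
    LS_add h (deg_sq d1 d1) (deg_sq d2 d2), LS_mul, LS_cross, mul_zero, add_zero]

theorem Op_split (hu0 : ∀ x, 0 ≤ u x) (hue : ∀ x, u (-x) = u x) (huc : Continuous u)
    (hi : Integrable (fun x => (1 + x ^ 2) ^ (2 * n) * u x)) {q r : ℝ[X]} (hq : q.natDegree ≤ n)
    (hr : r = 0 ∨ r.natDegree + 1 ≤ n) : Op u (q.comp (X ^ 2) + X * r.comp (X ^ 2)) = Oe u q + Oo u r := by
  have d1 := deg_comp2 hq
  have d2 := deg_odd hr
  rw [← Op_even, ← Op_odd, Op_eq, Op_eq, Op_eq]
  have e : (q.comp (X ^ 2) + X * r.comp (X ^ 2)) * (q.comp (X ^ 2) + X * r.comp (X ^ 2)) =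
      (q.comp (X ^ 2) * q.comp (X ^ 2) + (X * r.comp (X ^ 2)) * (X * r.comp (X ^ 2))) +
        C 2 * (q.comp (X ^ 2) * (X * r.comp (X ^ 2))) := by
    rw [show (C 2 : ℝ[X]) = 2 from rfl]
    ring
  have d3 : (C 2 * (q.comp (X ^ 2) * (X * r.comp (X ^ 2))) : ℝ[X]).natDegree ≤ 4 * n :=
    (natDegree_C_mul_le _ _).trans (deg_sq d1 d2)
  rw [e, OS_add hu0 huc hi (natDegree_add_le_of_degree_le (deg_sq d1 d1) (deg_sq d2 d2)) d3,
    OS_add hu0 huc hi (deg_sq d1 d1) (deg_sq d2 d2), OS_mul, OS_cross hue, mul_zero, add_zero]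

theorem Op_pos (hu0 : ∀ x, 0 ≤ u x) (huc : Continuous u) (hu : 0 < u 0)
    (hi : Integrable (fun x => (1 + x ^ 2) ^ (2 * n) * u x)) {P : ℝ[X]} (hP : P ≠ 0) (hd : P.natDegree ≤ 2 * n) :
    0 < Op u P := by
  have hint : Integrable fun x => P.eval x ^ 2 * u x := by
    have := OS_int hu0 huc hi (deg_sq hd hd)
    refine this.congr (Eventually.of_forall fun x => ?_)
    show (P * P).eval x * u x = P.eval x ^ 2 * u x
    rw [eval_mul, sq]
  have hc : Continuous fun x => P.eval x ^ 2 * u x := (P.continuous.pow 2).mul huc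
  unfold Op
  rw [integral_pos_iff_support_of_nonneg (fun x => mul_nonneg (sq_nonneg _) (hu0 x)) hint]
  refine hc.isOpen_support.measure_pos volume ?_
  by_contra hne
  rw [Set.not_nonempty_iff_eq_empty] at hne
  apply hP
  have h1 : ∀ᶠ x in 𝓝 (0 : ℝ), 0 < u x := huc.continuousAt.eventually (lt_mem_nhds hu)
  obtain ⟨ε, hε, hb⟩ := Metric.eventually_nhds_iff_ball.1 h1
  refine eq_zero_of_infinite_isRoot P (Set.Infinite.mono ?_ (Set.Ioo_infinite hε))
  intro x hx
  have hx1 : 0 < u x := hb x (by rw [Metric.mem_ball, Real.dist_eq, sub_zero, abs_of_pos hx.1]; exact hx.2)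
  have hx2 : x ∉ Function.support fun x => P.eval x ^ 2 * u x := by rw [hne]; exact Set.notMem_empty x
  rw [Function.notMem_support] at hx2
  rcases mul_eq_zero.1 hx2 with h3 | h3
  · exact pow_eq_zero_iff (by norm_num) |>.1 h3
  · exact absurd h3 hx1.ne'

theorem uni : S_Uni := by
  intro g M n u hPM hu0 hue huc hupos hi q0 hq0 hodd heven
  have hq0d : q0.natDegree ≤ n := hq0.1
  -- the first part
  have A1 : ∀ P : ℝ[X], P ≠ 0 → Gr g M u n P → P.eval 0 ≠ 0 ∧ ∃ q : ℝ[X], q ≠ 0 ∧ q.natDegree ≤ n ∧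
      P = q.comp (X ^ 2) ∧ Lam g M (q * q) * Oe u q0 ≤ Lam g M (q0 * q0) * Oe u q := by
    intro P hP hGr
    obtain ⟨hPd, hmin⟩ := hGr
    obtain ⟨q, hqdef⟩ : ∃ q, q = contract 2 P := ⟨_, rfl⟩
    obtain ⟨r, hrdef⟩ : ∃ r, r = contract 2 (divX P) := ⟨_, rfl⟩
    have hPs : P = q.comp (X ^ 2) + X * r.comp (X ^ 2) := by rw [hqdef, hrdef]; exact split_eval P
    have hqd : q.natDegree ≤ n := by rw [hqdef]; exact deg_contract hPd
    have hrd : r = 0 ∨ r.natDegree + 1 ≤ n := by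
      by_cases h0 : r = 0
      · exact Or.inl h0
      · right
        rw [hrdef] at h0 ⊢
        exact deg_contract' hPd h0
    have hb : 0 < Op u P := Op_pos hu0 huc hupos hi hP hPd
    have hLs : Lp g M P = Lam g M (q * q) + Lam g M (X * r * r) := by
      conv_lhs => rw [hPs]
      exact Lp_split hPM hqd hrd
    have hOs : Op u P = Oe u q + Oo u r := by
      conv_lhs => rw [hPs]
      exact Op_split hu0 hue huc hi hqd hrd
    have h1 := hmin (q.comp (X ^ 2)) (deg_comp2 hqd)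
    have h2 := hmin (X * r.comp (X ^ 2)) (deg_odd hrd)
    have h3 := hmin (q0.comp (X ^ 2)) (deg_comp2 hq0d)
    rw [Lp_even hPM, Op_even] at h1 h3
    rw [Lp_odd hPM, Op_odd] at h2
    have hOo : 0 ≤ Oo u r := integral_nonneg fun x => by
      have := hu0 x
      positivity
    have hOe : 0 ≤ Oe u q := integral_nonneg fun x => by
      have := hu0 x
      positivity
    have e2 : Lam g M (X * r * r) * Op u P = Lp g M P * Oo u r := by
      have e3 : Lp g M P * Op u P = Lp g M P * Oe u q + Lp g M P * Oo u r := by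
        rw [← mul_add, ← hOs]
      have e4 : Lp g M P * Op u P = Lam g M (q * q) * Op u P + Lam g M (X * r * r) * Op u P := by
        rw [← add_mul, ← hLs]
      linarith
    have e1 : Lam g M (q * q) * Op u P = Lp g M P * Oe u q := by
      have e3 : Lp g M P * Op u P = Lp g M P * Oe u q + Lp g M P * Oo u r := by
        rw [← mul_add, ← hOs]
      have e4 : Lp g M P * Op u P = Lam g M (q * q) * Op u P + Lam g M (X * r * r) * Op u P := by
        rw [← add_mul, ← hLs]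
      linarith
    have hr0 : r = 0 := by
      by_contra h0
      have hrd' : r.natDegree + 1 ≤ n := hrd.resolve_left h0
      have h4 := hodd r h0 hrd'
      have h5 := mul_lt_mul_of_pos_right h4 hb
      have h6 : Lam g M (X * r * r) * Oe u q0 * Op u P = (Lp g M P * Oe u q0) * Oo u r := by
        calc Lam g M (X * r * r) * Oe u q0 * Op u P = (Lam g M (X * r * r) * Op u P) * Oe u q0 := by ring
          _ = _ := by rw [e2]; ring
      have h7 := mul_le_mul_of_nonneg_right h3 hOo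
      rw [h6] at h5
      linarith
    have hPq : P = q.comp (X ^ 2) := by
      rw [hr0, zero_comp, mul_zero, add_zero] at hPs
      exact hPs
    have hq0' : q ≠ 0 := by
      intro h0
      rw [h0, zero_comp] at hPq
      exact hP hPq
    have hle : Lam g M (q * q) * Oe u q0 ≤ Lam g M (q0 * q0) * Oe u q := by
      have h5 := mul_le_mul_of_nonneg_right h3 hOe
      have h6 : Lp g M P * Oe u q0 * Oe u q = (Lam g M (q * q) * Oe u q0) * Op u P := by
        calc Lp g M P * Oe u q0 * Oe u q = (Lp g M P * Oe u q) * Oe u q0 := by ring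
          _ = _ := by rw [← e1]; ring
      rw [h6] at h5
      have h7 : (Lam g M (q * q) * Oe u q0) * Op u P ≤ (Lam g M (q0 * q0) * Oe u q) * Op u P := by linarith
      exact le_of_mul_le_mul_right h7 hb
    refine ⟨?_, q, hq0', hqd, hPq, hle⟩
    rw [hPq, eval_comp, eval_pow, eval_X, zero_pow (by norm_num)]
    exact heven q hq0' hqd hle
  -- sums of squares
  have lin : ∀ P A B : ℝ[X], P ≠ 0 → Gr g M u n P → A.natDegree ≤ 2 * n → B.natDegree ≤ 2 * n → ∀ s : ℝ,
      Lp g M A + Lp g M B ≤ s * Lp g M P → s * Op u P ≤ Op u A + Op u B → Gr g M u n A ∧ Gr g M u n B := by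
    intro P A B hP hGr hA hB s hs1 hs2
    obtain ⟨hPd, hmin⟩ := hGr
    have hb : 0 < Op u P := Op_pos hu0 huc hupos hi hP hPd
    have h1 := hmin A hA
    have h2 := hmin B hB
    have hOp0 : ∀ R, 0 ≤ Op u R := fun R => integral_nonneg fun x => mul_nonneg (sq_nonneg _) (hu0 x)
    have hLp0 : 0 ≤ Lp g M P := by
      unfold Pool.Agent.Q240.CD.Lp
      exact tsum_nonneg fun j => mul_nonneg (div_nonneg (hPM.nonneg j) (by norm_num)) (by positivity)
    have h3 : Lp g M A * Op u P = Lp g M P * Op u A ∧ Lp g M B * Op u P = Lp g M P * Op u B := by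
      have h4 := mul_le_mul_of_nonneg_right hs1 hb.le
      have h5 := mul_le_mul_of_nonneg_left hs2 hLp0
      constructor <;> nlinarith
    constructor
    · refine ⟨hA, fun R hR => ?_⟩
      have h4 := mul_le_mul_of_nonneg_right (hmin R hR) (hOp0 A)
      have h5 : Lp g M A * Op u R * Op u P ≤ Lp g M R * Op u A * Op u P := by
        calc Lp g M A * Op u R * Op u P = (Lp g M A * Op u P) * Op u R := by ring
          _ = Lp g M P * Op u R * Op u A := by rw [h3.1]; ring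
          _ ≤ _ := by linarith
      exact le_of_mul_le_mul_right h5 hb
    · refine ⟨hB, fun R hR => ?_⟩
      have h4 := mul_le_mul_of_nonneg_right (hmin R hR) (hOp0 B)
      have h5 : Lp g M B * Op u R * Op u P ≤ Lp g M R * Op u B * Op u P := by
        calc Lp g M B * Op u R * Op u P = (Lp g M B * Op u P) * Op u R := by ring
          _ = Lp g M P * Op u R * Op u B := by rw [h3.2]; ring
          _ ≤ _ := by linarith
      exact le_of_mul_le_mul_right h5 hb
  -- uniqueness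
  have B1 : ∀ P P' : ℝ[X], P ≠ 0 → Gr g M u n P → Gr g M u n P' → ∃ c : ℝ, P' = C c * P := by
    intro P P' hP hG hG'
    have hP0 : P.eval 0 ≠ 0 := (A1 P hP hG).1
    obtain ⟨a, ha⟩ : ∃ a : ℝ, a = P.eval 0 := ⟨_, rfl⟩
    obtain ⟨b, hb⟩ : ∃ b : ℝ, b = P'.eval 0 := ⟨_, rfl⟩
    rw [← ha] at hP0
    -- the combination `a P' - b P`
    have hPd := hG.1
    have hPd' := hG'.1
    have d1 : (C a * P' - C b * P).natDegree ≤ 2 * n :=
      (natDegree_sub_le_of_le ((natDegree_C_mul_le _ _).trans hPd') ((natDegree_C_mul_le _ _).trans hPd)).trans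
        (max_self _).le
    have d2 : (C a * P' + C b * P).natDegree ≤ 2 * n :=
      natDegree_add_le_of_degree_le ((natDegree_C_mul_le _ _).trans hPd') ((natDegree_C_mul_le _ _).trans hPd)
    have epoly : (C a * P' - C b * P) * (C a * P' - C b * P) + (C a * P' + C b * P) * (C a * P' + C b * P) =
        C (2 * a ^ 2) * (P' * P') + C (2 * b ^ 2) * (P * P) := by
      simp only [C_mul, C_pow]
      rw [show (C 2 : ℝ[X]) = 2 from rfl]
      ring
    have hOpP : 0 < Op u P := Op_pos hu0 huc hupos hi hP hPd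
    have eL : Lp g M (C a * P' - C b * P) + Lp g M (C a * P' + C b * P) = 2 * a ^ 2 * Lp g M P' + 2 * b ^ 2 * Lp g M P := by
      rw [Lp_eq, Lp_eq, Lp_eq, Lp_eq, ← LS_mul, ← LS_mul, ← LS_add hPM (deg_sq d1 d1) (deg_sq d2 d2),
        ← LS_add hPM ((natDegree_C_mul_le _ _).trans (deg_sq hPd' hPd')) ((natDegree_C_mul_le _ _).trans (deg_sq hPd hPd)),
        epoly]
    have eO : Op u (C a * P' - C b * P) + Op u (C a * P' + C b * P) = 2 * a ^ 2 * Op u P' + 2 * b ^ 2 * Op u P := by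
      rw [Op_eq, Op_eq, Op_eq, Op_eq, ← OS_mul, ← OS_mul, ← OS_add hu0 huc hi (deg_sq d1 d1) (deg_sq d2 d2),
        ← OS_add hu0 huc hi ((natDegree_C_mul_le _ _).trans (deg_sq hPd' hPd'))
          ((natDegree_C_mul_le _ _).trans (deg_sq hPd hPd)), epoly]
    have hPP' : Lp g M P' * Op u P ≤ Lp g M P * Op u P' := hG'.2 P hPd
    have hPP2 : Lp g M P * Op u P' ≤ Lp g M P' * Op u P := hG.2 P' hPd'
    have hrel : Lp g M P' = Op u P' / Op u P * Lp g M P := by
      rw [div_mul_eq_mul_div, eq_div_iff hOpP.ne']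
      linarith
    have hG2 := (lin P (C a * P' - C b * P) (C a * P' + C b * P) hP hG d1 d2
      (2 * a ^ 2 * (Op u P' / Op u P) + 2 * b ^ 2) (le_of_eq (by rw [eL, hrel]; ring))
      (le_of_eq (by rw [eO]; field_simp))).1
    by_cases h0 : C a * P' - C b * P = 0
    · refine ⟨b / a, ?_⟩
      have h1 : C a * P' = C b * P := sub_eq_zero.1 h0
      calc P' = C (a⁻¹ * a) * P' := by rw [inv_mul_cancel₀ hP0, C_1, one_mul]
        _ = C a⁻¹ * (C a * P') := by rw [C_mul, mul_assoc]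
        _ = C a⁻¹ * (C b * P) := by rw [h1]
        _ = C (b / a) * P := by rw [← mul_assoc, ← C_mul, div_eq_inv_mul]
    · exfalso
      apply (A1 _ h0 hG2).1
      rw [eval_sub, eval_mul, eval_mul, eval_C, eval_C, ← ha, ← hb]
      ring
  refine ⟨fun P hP hG => ?_, B1⟩
  obtain ⟨hP0, q, hq⟩ := A1 P hP hG
  refine ⟨hP0, fun z hz => ?_, q, hq⟩
  by_contra him
  obtain ⟨T, hT⟩ := quadratic_dvd_of_aeval_eq_zero_im_ne_zero P hz him
  obtain ⟨α, hα⟩ : ∃ α : ℝ, α = z.re := ⟨_, rfl⟩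
  obtain ⟨β, hβ⟩ : ∃ β : ℝ, β = z.im := ⟨_, rfl⟩
  rw [← hβ] at him
  have hquad : X ^ 2 - C (2 * z.re) * X + C (‖z‖ ^ 2) = (X - C α) ^ 2 + C (β ^ 2) := by
    have e : ‖z‖ ^ 2 = α ^ 2 + β ^ 2 := by
      rw [← Complex.normSq_eq_norm_sq, Complex.normSq_apply, hα, hβ]
      ring
    rw [e, ← hα]
    simp only [C_mul, C_add, C_pow]
    rw [show (C 2 : ℝ[X]) = 2 from rfl]
    ring
  rw [hquad] at hT
  have hT0 : T ≠ 0 := by
    rintro rfl
    rw [mul_zero] at hT
    exact hP hT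
  have hPd := hG.1
  have hqd0 : ((X - C α) ^ 2 + C (β ^ 2) : ℝ[X]).natDegree = 2 := by
    rw [natDegree_add_C, natDegree_pow, natDegree_X_sub_C]
  have hqne : ((X - C α) ^ 2 + C (β ^ 2) : ℝ[X]) ≠ 0 := by
    intro h0
    rw [h0, natDegree_zero] at hqd0
    omega
  have hdP : P.natDegree = 2 + T.natDegree := by rw [hT, natDegree_mul hqne hT0, hqd0]
  have dA : (((X - C α) ^ 2 - C (β ^ 2)) * T).natDegree ≤ 2 * n := by
    refine natDegree_mul_le.trans ?_
    rw [natDegree_sub_C, natDegree_pow, natDegree_X_sub_C]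
    omega
  have dB : (C (2 * β) * (X - C α) * T).natDegree ≤ 2 * n := by
    refine natDegree_mul_le.trans ?_
    have h1 : (C (2 * β) * (X - C α) : ℝ[X]).natDegree ≤ 1 := by
      refine (natDegree_C_mul_le _ _).trans ?_
      rw [natDegree_X_sub_C]
    omega
  have epoly : (((X - C α) ^ 2 - C (β ^ 2)) * T) * (((X - C α) ^ 2 - C (β ^ 2)) * T) +
      (C (2 * β) * (X - C α) * T) * (C (2 * β) * (X - C α) * T) = P * P := by
    rw [hT]
    simp only [C_mul, C_pow]
    rw [show (C 2 : ℝ[X]) = 2 from rfl]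
    ring
  have eL : Lp g M (((X - C α) ^ 2 - C (β ^ 2)) * T) + Lp g M (C (2 * β) * (X - C α) * T) = Lp g M P := by
    rw [Lp_eq, Lp_eq, Lp_eq, ← LS_add hPM (deg_sq dA dA) (deg_sq dB dB), epoly]
  have eO : Op u (((X - C α) ^ 2 - C (β ^ 2)) * T) + Op u (C (2 * β) * (X - C α) * T) = Op u P := by
    rw [Op_eq, Op_eq, Op_eq, ← OS_add hu0 huc hi (deg_sq dA dA) (deg_sq dB dB), epoly]
  have hGB := (lin P _ _ hP hG dA dB 1 (by rw [eL]; linarith) (by rw [eO]; linarith)).2
  obtain ⟨c, hc⟩ := B1 P _ hP hG hGB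
  rw [hT, ← mul_assoc] at hc
  have h1 := mul_right_cancel₀ hT0 hc
  have h2 := congrArg (eval α) h1
  simp only [eval_mul, eval_C, eval_sub, eval_X, eval_add, eval_pow, sub_self] at h2
  have hc0 : c = 0 := by
    have h3 : c * β ^ 2 = 0 := by linarith
    rcases mul_eq_zero.1 h3 with h4 | h4
    · exact h4
    · exact absurd (pow_eq_zero_iff (by norm_num) |>.1 h4) him
  have h3 := congrArg (eval (α + 1)) h1
  simp only [eval_mul, eval_C, eval_sub, eval_X, eval_add, eval_pow, hc0] at h3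
  apply him
  linarith

end Pool.Agent.Q16.CD
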